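import Pool.Agent.Lib.S3.Hop.HubChart

/-!
# The hub theorem with the hub functional off infinity (smoothed Hirsch, MP_4a5c02_co)

The chart row is `N = chN a b w`, the hub functional is `∑ c_o slack_o` with `0 ≤ c_i ≤ Gc w_i` for
the random rows and `-Θ' ≤ c_∞ ≤ -Θ < 0`.
-/

set_option autoImplicit false

namespace Pool.Agent.Lib.S3.Hop

open Pool.Agent.Lib.S3 Pool.Agent.Lib.S3.Geo
open Pool.Agent.Lib.SHirsch (Gr GPos)

variable {m n : ℕ}

/-- The functional `∑ c_o slack_o`. -/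
noncomputable def hubv (a : Fin m → Fin n → ℝ) (b : Fin m → ℝ) (c : Option (Fin m) → ℝ) :
    Fin (n + 1) → ℝ := ∑ o, c o • (-(Gr a b o))

theorem hubv_dot (a : Fin m → Fin n → ℝ) (b : Fin m → ℝ) (c : Option (Fin m) → ℝ)
    (y : Fin (n + 1) → ℝ) : hubv a b c ⬝ᵥ y = ∑ o, c o * slk a b o y := by
  unfold hubv
  rw [sum_dotProduct]
  refine Finset.sum_congr rfl fun o _ => ?_
  rw [smul_dotProduct, smul_eq_mul]
  rfl

theorem slk_none (a : Fin m → Fin n → ℝ) (b : Fin m → ℝ) (y : Fin (n + 1) → ℝ) :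
    slk a b none y = y 0 := by
  rw [slk_apply, gr_none, neg_neg]

theorem chN_slk (a : Fin m → Fin n → ℝ) (b : Fin m → ℝ) (w : Option (Fin m) → ℝ)
    (y : Fin (n + 1) → ℝ) : chN a b w ⬝ᵥ y = ∑ o, w o * slk a b o y := by
  rw [chN_dot]
  refine Finset.sum_congr rfl fun o _ => ?_
  rw [slk_apply]

theorem slk_nonneg {a : Fin m → Fin n → ℝ} {b : Fin m → ℝ} {N y : Fin (n + 1) → ℝ}
    (hy : y ∈ Chart a b N) (o : Option (Fin m)) : 0 ≤ slk a b o y :=
  ((mem_hat_iff a b N y).2 hy).2 o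

/-- **The hub theorem.** -/
theorem hub_final (hnm : n ≤ m) {a : Fin m → Fin n → ℝ} {b : Fin m → ℝ}
    {w : Option (Fin m) → ℝ} (hw : ∀ o, 0 < w o)
    (hG : GP (chA a b (chN a b w)) (chB m) {none})
    (k k₁ k₂ : ℕ) (s A S θ τ : ℝ) (hA : 0 ≤ A) (hS : ∀ o, 1 ≤ S * w o)
    (hstr : ∀ u, Vert (chA a b (chN a b w)) (chB m) {none} (chS m) u → 0 < u 0 →
      Str (slk a b) (dl (chN a b w)) k s A u)
    (hnear : ∀ u, Vert (chA a b (chN a b w)) (chB m) {none} (chS m) u → 0 < u 0 →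
      (nearC a b s u).card ≤ k₂)
    (hθ0 : 0 ≤ θ) (hθ1 : θ ≤ 1) (hθ : θ * (s + 2 * A * S) ≤ s)
    (c : Option (Fin m) → ℝ) (Gc Θ Θ' γ : ℝ) (hGc : 0 ≤ Gc)
    (hc0 : ∀ i, 0 ≤ c (some i)) (hc1 : ∀ i, c (some i) ≤ Gc * w (some i))
    (hcn : c none ≤ -Θ) (hcn' : -Θ' ≤ c none) (hΘ : 0 ≤ Θ)
    (X : Fin (n + 1) → ℝ) (hX : X ∈ Chart a b (chN a b w)) (hγ : γ ≤ X 0)
    (hΘγ : Gc < θ * (Θ * γ))
    (h : Fin (n + 1) → ℝ) (hh : Vert (chA a b (chN a b w)) (chB m) {none} (chS m) h)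
    (hmin : ∀ y ∈ Chart a b (chN a b w), hubv a b c ⬝ᵥ h ≤ hubv a b c ⬝ᵥ y)
    (lam : Option (Fin m) → ℝ) (μ : ℝ) (hlam : ∀ o ∈ tig (slk a b) h, 0 ≤ lam o)
    (hid : ∀ y, hubv a b c ⬝ᵥ y =
      μ * (chN a b w ⬝ᵥ y) + ∑ o ∈ tig (slk a b) h, lam o * slk a b o y)
    (hτ : 0 < τ) (hsmall : ((tig (slk a b) h).filter (fun o => lam o < τ)).card ≤ k₁)
    (L κ : ℕ) (hκ : k + 2 ≤ κ) (hκ' : k₁ + k₂ ≤ κ)
    (hPL : ∀ u u', Vert (chA a b (chN a b w)) (chB m) {none} (chS m) u →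
      Vert (chA a b (chN a b w)) (chB m) {none} (chS m) u' → 0 < u 0 → 0 < u' 0 →
      n ≤ (tig (slk a b) u ∩ tig (slk a b) u').card + κ →
      Reach (chA a b (chN a b w)) (chB m) {none} (chS m) L u u')
    (t : ℕ) (ht : (1 - θ) ^ t * (Gc + Θ' * S) ≤ τ * s)
    (u v : Fin (n + 1) → ℝ)
    (hu : Vert (chA a b (chN a b w)) (chB m) {none} (chS m) u) (hu0 : 0 < u 0)
    (hv : Vert (chA a b (chN a b w)) (chB m) {none} (chS m) v) (hv0 : 0 < v 0) :
    Reach (chA a b (chN a b w)) (chB m) {none} (chS m) (2 * ((t + 1) * L)) u v := by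
  classical
  set N := chN a b w with hN
  have hbd : Bornology.IsBounded (Chart a b N) := chart_bounded hnm hw hG
  have hN1 : ∀ y ∈ Chart a b N, ∑ o, w o * slk a b o y = 1 := by
    intro y hy
    rw [← chN_slk]
    exact ((mem_hat_iff a b N y).2 hy).1
  have hS0 : 0 ≤ S := by
    by_contra hcon
    have h1 := hS none
    have h2 := mul_neg_of_neg_of_pos (not_le.1 hcon) (hw none)
    linarith
  have hsum : ∀ y ∈ Chart a b N, ∀ I : Finset (Option (Fin m)), ∑ o ∈ I, slk a b o y ≤ S := by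
    intro y hy I
    have h1 : ∀ o ∈ I, slk a b o y ≤ S * (w o * slk a b o y) := by
      intro o _
      have := mul_le_mul_of_nonneg_right (hS o) (slk_nonneg hy o)
      calc slk a b o y = 1 * slk a b o y := (one_mul _).symm
        _ ≤ S * w o * slk a b o y := this
        _ = S * (w o * slk a b o y) := by ring
    refine (Finset.sum_le_sum h1).trans ?_
    rw [← Finset.mul_sum]
    have h2 : ∑ o ∈ I, w o * slk a b o y ≤ 1 := by
      rw [← hN1 y hy]
      exact Finset.sum_le_sum_of_subset_of_nonneg (Finset.subset_univ _)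
        fun o _ _ => mul_nonneg (hw o).le (slk_nonneg hy o)
    calc S * ∑ o ∈ I, w o * slk a b o y ≤ S * 1 := mul_le_mul_of_nonneg_left h2 hS0
      _ = S := mul_one S
  -- the value of the hub functional
  have hval : ∀ y : Fin (n + 1) → ℝ, hubv a b c ⬝ᵥ y =
      c none * y 0 + ∑ i, c (some i) * slk a b (some i) y := by
    intro y
    rw [hubv_dot, Fintype.sum_option, slk_none]
  have hpos : ∀ y ∈ Chart a b N, 0 ≤ ∑ i, c (some i) * slk a b (some i) y := fun y hy =>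
    Finset.sum_nonneg fun i _ => mul_nonneg (hc0 i) (slk_nonneg hy _)
  have hle : ∀ y ∈ Chart a b N, ∑ i, c (some i) * slk a b (some i) y ≤ Gc := by
    intro y hy
    have h1 : ∀ i ∈ (Finset.univ : Finset (Fin m)), c (some i) * slk a b (some i) y ≤
        Gc * (w (some i) * slk a b (some i) y) := by
      intro i _
      have := mul_le_mul_of_nonneg_right (hc1 i) (slk_nonneg hy (some i))
      linarith
    refine (Finset.sum_le_sum h1).trans ?_
    rw [← Finset.mul_sum]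
    have h2 : ∑ i, w (some i) * slk a b (some i) y ≤ 1 := by
      rw [← hN1 y hy, Fintype.sum_option]
      have := mul_nonneg (hw none).le (slk_nonneg hy none)
      linarith
    calc Gc * ∑ i, w (some i) * slk a b (some i) y ≤ Gc * 1 := mul_le_mul_of_nonneg_left h2 hGc
      _ = Gc := mul_one Gc
  have hy0 : ∀ y ∈ Chart a b N, 0 ≤ y 0 := fun y hy => by
    have := slk_nonneg hy none
    rwa [slk_none] at this
  have hy0S : ∀ y ∈ Chart a b N, y 0 ≤ S := fun y hy => by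
    have := hsum y hy {none}
    rwa [Finset.sum_singleton, slk_none] at this
  have hcnon : c none ≤ 0 := by linarith
  have hup : ∀ y ∈ Chart a b N, hubv a b c ⬝ᵥ y ≤ Gc := by
    intro y hy
    rw [hval]
    have h1 := mul_nonneg (neg_nonneg.2 hcnon) (hy0 y hy)
    have h2 := hle y hy
    linarith
  have hXv : hubv a b c ⬝ᵥ X ≤ Gc - Θ * γ := by
    rw [hval]
    have h1 : c none * X 0 ≤ -Θ * X 0 := mul_le_mul_of_nonneg_right hcn (hy0 X hX)
    have h2 : Θ * γ ≤ Θ * X 0 := mul_le_mul_of_nonneg_left hγ hΘ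
    have h3 := hle X hX
    linarith
  have key := fun u hu hu0 => hub_chart hG hbd k k₁ k₂ s A S θ τ hA (hubv a b c) hstr hnear h X hh
    hmin hX (fun I => hsum h hh.1 I) hθ0 hθ1 hθ Gc hup hGc (by
      have h1 : θ * (hubv a b c ⬝ᵥ X) ≤ θ * (Gc - Θ * γ) := mul_le_mul_of_nonneg_left hXv hθ0
      have h2 : (1 - θ) * Gc + θ * (Gc - Θ * γ) = Gc - θ * (Θ * γ) := by ring
      linarith) (by
      intro y hy h0
      rw [hval, h0, mul_zero, zero_add]
      exact hpos y hy) lam μ hlam hid hτ hsmall L κ hκ hκ' hPL t (Gc + Θ' * S) (by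
      intro y hy
      have h1 := hup y hy
      have h2 : -(Θ' * S) ≤ hubv a b c ⬝ᵥ h := by
        rw [hval]
        have h3 := hpos h hh.1
        have h4 : -Θ' * h 0 ≤ c none * h 0 := mul_le_mul_of_nonneg_right hcn' (hy0 h hh.1)
        have h5 : 0 ≤ Θ' := by linarith
        have h6 : Θ' * h 0 ≤ Θ' * S := mul_le_mul_of_nonneg_left (hy0S h hh.1) h5
        linarith
      linarith) ht u hu hu0
  have h1 := key u hu hu0
  have h2 := key v hv hv0
  have h3 := reach_trans h1 (reach_symm h2)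
  rwa [← two_mul] at h3

end Pool.Agent.Lib.S3.Hop
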