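import Pool.Agent.Lib.S3.Hop.HubFinal
import Pool.Agent.Lib.S3.Hub.Light
import Pool.Agent.Lib.S3.PL.Opt

/-!
# The hub theorem from a certificate of the hub (smoothed Hirsch, MP_4a5c02_co)

`hub_tuple`: the minimiser of the hub functional is given by a tuple of rows with multipliers;
`hub_crt`: by `Cert.Crt`; `hub_opt`: by `PL.Opt`.
-/

set_option autoImplicit false

namespace Pool.Agent.Lib.S3.Hop

open Pool.Agent.Lib.S3 Pool.Agent.Lib.S3.Geo
open Pool.Agent.Lib.SHirsch (Gr GPos)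

variable {m n : ℕ}

/-- The coefficients of the hub functional. -/
def hubc (Θ : ℝ) (g : Fin m → ℝ) : Option (Fin m) → ℝ := fun o => Option.elim o (-Θ) g

theorem hubG_eq (a : Fin m → Fin n → ℝ) (b : Fin m → ℝ) (Θ : ℝ) (g : Fin m → ℝ) :
    Hub.hubG Θ (fun o => -(Gr a b o)) g = hubv a b (hubc Θ g) := by
  unfold Hub.hubG hubv
  rw [Fintype.sum_option]
  have h1 : hubc Θ g none = -Θ := rfl
  have h2 : ∀ i, hubc Θ g (some i) = g i := fun _ => rfl
  simp only [h1, h2, neg_smul]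
  abel

/-- **The hub theorem**, with the hub given by a tuple of rows. -/
theorem hub_tuple (hnm : n ≤ m) {a : Fin m → Fin n → ℝ} {b : Fin m → ℝ}
    {w : Option (Fin m) → ℝ} (hw : ∀ o, 0 < w o)
    (hG : GP (chA a b (chN a b w)) (chB m) {none})
    (k k₁ k₂ : ℕ) (s A S θ τ : ℝ) (hA : 0 ≤ A) (hS : ∀ o, 1 ≤ S * w o)
    (hstr : ∀ u, Vert (chA a b (chN a b w)) (chB m) {none} (chS m) u → 0 < u 0 →
      Str (slk a b) (dl (chN a b w)) k s A u)
    (hnear : ∀ u, Vert (chA a b (chN a b w)) (chB m) {none} (chS m) u → 0 < u 0 →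
      (nearC a b s u).card ≤ k₂)
    (hθ0 : 0 ≤ θ) (hθ1 : θ ≤ 1) (hθ : θ * (s + 2 * A * S) ≤ s)
    (g : Fin m → ℝ) (Gc Θ γ : ℝ) (hGc : 0 ≤ Gc) (hg0 : ∀ i, 0 ≤ g i)
    (hg1 : ∀ i, g i ≤ Gc * w (some i)) (hΘ : 0 ≤ Θ)
    (X : Fin (n + 1) → ℝ) (hX : X ∈ Chart a b (chN a b w)) (hγ : γ ≤ X 0)
    (hΘγ : Gc < θ * (Θ * γ))
    (e : Fin n → Option (Fin m)) (he : Function.Injective e) (h : Fin (n + 1) → ℝ)
    (hN : chN a b w ⬝ᵥ h = 1) (he0 : ∀ k, slk a b (e k) h = 0)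
    (hpos : ∀ o, (∀ k, e k ≠ o) → 0 < slk a b o h)
    (lam : Fin n → ℝ) (μ : ℝ) (hlam : ∀ k, 0 < lam k)
    (hid : ∀ y, hubv a b (hubc Θ g) ⬝ᵥ y =
      μ * (chN a b w ⬝ᵥ y) + ∑ k, lam k * slk a b (e k) y)
    (hτ : 0 < τ)
    (hsmall : none ∉ Set.range e → (Finset.univ.filter (fun k => lam k ≤ τ)).card ≤ k₁)
    (L κ : ℕ) (hκ : k + 2 ≤ κ) (hκ' : k₁ + k₂ ≤ κ)
    (hPL : ∀ u u', Vert (chA a b (chN a b w)) (chB m) {none} (chS m) u →
      Vert (chA a b (chN a b w)) (chB m) {none} (chS m) u' → 0 < u 0 → 0 < u' 0 →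
      n ≤ (tig (slk a b) u ∩ tig (slk a b) u').card + κ →
      Reach (chA a b (chN a b w)) (chB m) {none} (chS m) L u u')
    (t : ℕ) (ht : (1 - θ) ^ t * (Gc + Θ * S) ≤ τ * s)
    (u v : Fin (n + 1) → ℝ)
    (hu : Vert (chA a b (chN a b w)) (chB m) {none} (chS m) u) (hu0 : 0 < u 0)
    (hv : Vert (chA a b (chN a b w)) (chB m) {none} (chS m) v) (hv0 : 0 < v 0) :
    Reach (chA a b (chN a b w)) (chB m) {none} (chS m) (2 * ((t + 1) * L)) u v := by
  classical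
  -- the tight rows of the hub
  have htig : tig (slk a b) h = Finset.univ.map ⟨e, he⟩ := by
    ext o
    rw [mem_tig, Finset.mem_map]
    constructor
    · intro h0
      by_contra hcon
      have := hpos o (fun k hk => hcon ⟨k, Finset.mem_univ _, hk⟩)
      linarith
    · rintro ⟨k, -, rfl⟩
      exact he0 k
  have hmem : h ∈ Hat (slk a b) (dl (chN a b w)) := by
    refine ⟨hN, fun o => ?_⟩
    by_cases ho : ∃ k, e k = o
    · obtain ⟨k, rfl⟩ := ho
      exact (he0 k).ge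
    · push Not at ho
      exact (hpos o ho).le
  have hch : h ∈ Chart a b (chN a b w) := (mem_hat_iff a b _ h).1 hmem
  have hh : Vert (chA a b (chN a b w)) (chB m) {none} (chS m) h := by
    refine ⟨hch, ?_⟩
    rw [univ_chS {none} (Finset.mem_singleton_self _), card_tt a b hN, htig, Finset.card_map,
      Finset.card_univ, Fintype.card_fin]
  have hmin : ∀ y ∈ Chart a b (chN a b w),
      hubv a b (hubc Θ g) ⬝ᵥ h ≤ hubv a b (hubc Θ g) ⬝ᵥ y := by
    intro y hy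
    have hy' := (mem_hat_iff a b _ y).2 hy
    rw [hid h, hid y, hN]
    have h1 : chN a b w ⬝ᵥ y = 1 := hy'.1
    rw [h1]
    have h2 : ∑ k, lam k * slk a b (e k) h = 0 :=
      Finset.sum_eq_zero fun k _ => by rw [he0 k, mul_zero]
    have h3 : 0 ≤ ∑ k, lam k * slk a b (e k) y :=
      Finset.sum_nonneg fun k _ => mul_nonneg (hlam k).le (hy'.2 _)
    rw [h2]
    linarith
  -- the hub is off infinity
  have hnone : none ∉ Set.range e := by
    rintro ⟨k, hk⟩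
    have h0 : h 0 = 0 := by
      have := he0 k
      rwa [hk, slk_none] at this
    have hval : ∀ y : Fin (n + 1) → ℝ, hubv a b (hubc Θ g) ⬝ᵥ y =
        -Θ * y 0 + ∑ i, g i * slk a b (some i) y := by
      intro y
      rw [hubv_dot, Fintype.sum_option, slk_none]
      rfl
    have h1 : 0 ≤ hubv a b (hubc Θ g) ⬝ᵥ h := by
      rw [hval, h0, mul_zero, zero_add]
      exact Finset.sum_nonneg fun i _ => mul_nonneg (hg0 i) (hmem.2 _)
    have h2 := hmin X hX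
    have hX' := (mem_hat_iff a b _ X).2 hX
    have h3 : ∑ i, g i * slk a b (some i) X ≤ Gc := by
      have h4 : ∀ i ∈ (Finset.univ : Finset (Fin m)), g i * slk a b (some i) X ≤
          Gc * (w (some i) * slk a b (some i) X) := by
        intro i _
        have := mul_le_mul_of_nonneg_right (hg1 i) (hX'.2 (some i))
        linarith
      refine (Finset.sum_le_sum h4).trans ?_
      rw [← Finset.mul_sum]
      have h5 : ∑ i, w (some i) * slk a b (some i) X ≤ 1 := by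
        have h6 : chN a b w ⬝ᵥ X = 1 := hX'.1
        rw [chN_slk, Fintype.sum_option] at h6
        have := mul_nonneg (hw none).le (hX'.2 none)
        linarith
      calc Gc * ∑ i, w (some i) * slk a b (some i) X ≤ Gc * 1 :=
            mul_le_mul_of_nonneg_left h5 hGc
        _ = Gc := mul_one Gc
    have h7 : Θ * γ ≤ Θ * X 0 := mul_le_mul_of_nonneg_left hγ hΘ
    have h8 : θ * (Θ * γ) ≤ Θ * γ := by
      have h9 : 0 ≤ Θ * γ := by
        by_contra hcon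
        have : θ * (Θ * γ) ≤ 0 := mul_nonpos_of_nonneg_of_nonpos hθ0 (not_le.1 hcon).le
        linarith
      calc θ * (Θ * γ) ≤ 1 * (Θ * γ) := mul_le_mul_of_nonneg_right hθ1 h9
        _ = Θ * γ := one_mul _
    rw [hval X] at h2
    linarith
  -- multipliers as a function of the rows
  set lam' : Option (Fin m) → ℝ := fun o => if ho : ∃ k, e k = o then lam ho.choose else 0 with hl'
  have hlam' : ∀ k, lam' (e k) = lam k := by
    intro k
    have ho : ∃ k', e k' = e k := ⟨k, rfl⟩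
    simp only [hl']
    rw [dif_pos ho, he ho.choose_spec]
  refine hub_final hnm hw hG k k₁ k₂ s A S θ τ hA hS hstr hnear hθ0 hθ1 hθ (hubc Θ g) Gc Θ Θ γ hGc
    (fun i => hg0 i) (fun i => hg1 i) le_rfl le_rfl hΘ X hX hγ hΘγ h hh hmin lam' μ ?_ ?_ hτ ?_
    L κ hκ hκ' hPL t ht u v hu hu0 hv hv0
  · intro o ho
    rw [htig, Finset.mem_map] at ho
    obtain ⟨k, -, rfl⟩ := ho
    show 0 ≤ lam' (e k)
    rw [hlam']
    exact (hlam k).le
  · intro y
    rw [hid y, htig, Finset.sum_map]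
    congr 1
    refine Finset.sum_congr rfl fun k _ => ?_
    show lam k * slk a b (e k) y = lam' (e k) * slk a b (e k) y
    rw [hlam']
  · refine le_trans ?_ (hsmall hnone)
    rw [htig]
    refine le_trans (le_of_eq ?_) (Finset.card_le_card (s := Finset.univ.filter
      (fun k => lam' (e k) < τ)) ?_)
    · rw [Finset.filter_map, Finset.card_map]
      rfl
    · intro k hk
      rw [Finset.mem_filter] at hk ⊢
      exact ⟨hk.1, by rw [← hlam']; exact hk.2.le⟩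

/-- **The hub theorem**, with the hub given by `Cert.Crt` and few light multipliers outside
`Hub.HubBad`. -/
theorem hub_crt (hnm : n ≤ m) {a : Fin m → Fin n → ℝ} {b : Fin m → ℝ}
    {w : Option (Fin m) → ℝ} (hw : ∀ o, 0 < w o)
    (hG : GP (chA a b (chN a b w)) (chB m) {none})
    (k k₁ k₂ : ℕ) (s A S θ τ : ℝ) (hA : 0 ≤ A) (hS : ∀ o, 1 ≤ S * w o)
    (hstr : ∀ u, Vert (chA a b (chN a b w)) (chB m) {none} (chS m) u → 0 < u 0 →
      Str (slk a b) (dl (chN a b w)) k s A u)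
    (hnear : ∀ u, Vert (chA a b (chN a b w)) (chB m) {none} (chS m) u → 0 < u 0 →
      (nearC a b s u).card ≤ k₂)
    (hθ0 : 0 ≤ θ) (hθ1 : θ ≤ 1) (hθ : θ * (s + 2 * A * S) ≤ s)
    (g : Fin m → ℝ) (Gc Θ γ : ℝ) (hGc : 0 ≤ Gc) (hg0 : ∀ i, 0 ≤ g i)
    (hg1 : ∀ i, g i ≤ Gc * w (some i)) (hΘ : 0 ≤ Θ)
    (X : Fin (n + 1) → ℝ) (hX : X ∈ Chart a b (chN a b w)) (hγ : γ ≤ X 0)
    (hΘγ : Gc < θ * (Θ * γ))
    (J : Fin n → Option (Fin m))
    (hJ : Cert.Crt (fun o => -(Gr a b o)) (chN a b w)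
      (Hub.hubG Θ (fun o => -(Gr a b o)) g) ∅ J) (hτ : 0 < τ)
    (hbad : ¬ Hub.HubBad Θ τ (k₁ + 1) (fun o => -(Gr a b o)) (chN a b w) g)
    (L κ : ℕ) (hκ : k + 2 ≤ κ) (hκ' : k₁ + k₂ ≤ κ)
    (hPL : ∀ u u', Vert (chA a b (chN a b w)) (chB m) {none} (chS m) u →
      Vert (chA a b (chN a b w)) (chB m) {none} (chS m) u' → 0 < u 0 → 0 < u' 0 →
      n ≤ (tig (slk a b) u ∩ tig (slk a b) u').card + κ →
      Reach (chA a b (chN a b w)) (chB m) {none} (chS m) L u u')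
    (t : ℕ) (ht : (1 - θ) ^ t * (Gc + Θ * S) ≤ τ * s)
    (u v : Fin (n + 1) → ℝ)
    (hu : Vert (chA a b (chN a b w)) (chB m) {none} (chS m) u) (hu0 : 0 < u 0)
    (hv : Vert (chA a b (chN a b w)) (chB m) {none} (chS m) v) (hv0 : 0 < v 0) :
    Reach (chA a b (chN a b w)) (chB m) {none} (chS m) (2 * ((t + 1) * L)) u v := by
  classical
  have hdet := hJ.det
  refine hub_tuple hnm hw hG k k₁ k₂ s A S θ τ hA hS hstr hnear hθ0 hθ1 hθ g Gc Θ γ hGc hg0 hg1 hΘ
    X hX hγ hΘγ J (Cert.inj_of_det hdet) (Cert.XJ (fun o => -(Gr a b o)) (chN a b w) J)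
    (Cert.XJ_N hdet) (fun k => Cert.XJ_row hdet k) (fun o ho => ?_)
    (Cert.lam (fun o => -(Gr a b o)) (chN a b w) (Hub.hubG Θ (fun o => -(Gr a b o)) g) J)
    ((Hub.hubG Θ (fun o => -(Gr a b o)) g) ⬝ᵥ Cert.XJ (fun o => -(Gr a b o)) (chN a b w) J)
    (fun k => hJ.lam k (Set.notMem_empty _)) (fun y => ?_) hτ (fun hn => ?_) L κ hκ hκ' hPL t ht
    u v hu hu0 hv hv0
  · exact hJ.pos o (fun ⟨k, hk⟩ => ho k hk)
  · rw [← hubG_eq]
    exact Cert.dual hdet _ y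
  · exact Nat.lt_succ_iff.1 (Hub.few_light hbad hJ hn)

/-- `PL.Opt` without pinned and deleted rows is a certificate. -/
theorem crt_of_opt {ι : Type} {ρ : ι → Fin (n + 1) → ℝ} {N Γ : Fin (n + 1) → ℝ}
    {e : Fin n → ι} (h : PL.Opt N ρ Γ ∅ ∅ e) : Cert.Crt ρ N Γ ∅ e := by
  have hdet : (Cert.AJ ρ N e).det ≠ 0 := h.det
  have hX : Cert.XJ ρ N e = PL.pt N ρ e :=
    PL.pt_unique h.det (Cert.XJ_N hdet) fun k => Cert.XJ_row hdet k
  refine ⟨⟨hdet, fun o ho => ?_⟩, fun o ho => absurd ho (Set.notMem_empty _), fun k _ => ?_⟩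
  · rw [hX]
    exact h.pos o (by simp) (fun k hk => ho ⟨k, hk⟩)
  · have h1 := h.mul k (by simp)
    obtain ⟨Y, hY0, hY1, hY2, hY3⟩ := Cert.exists_test hdet k
    have h2 : Y = PL.dv N ρ e k := PL.dv_unique h.det hY0 hY1 fun l hl => hY2 l hl
    have h3 := hY3 Γ
    rw [h2] at h3
    rw [← h3]
    exact h1

end Pool.Agent.Lib.S3.Hop
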