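import Mathlib

/-!
# Caratheodory for cones, with a bound for the support (smoothed Hirsch, MP_4a5c02_co)
-/

set_option autoImplicit false

open scoped BigOperators

namespace Pool.Agent.Lib.S3.Hop

open Classical in
/-- The support of a coefficient vector. -/
noncomputable def spp {I : Type*} [Fintype I] (t : I → ℝ) : Finset I :=
  Finset.univ.filter (fun i => t i ≠ 0)

theorem mem_spp {I : Type*} [Fintype I] {t : I → ℝ} {i : I} : i ∈ spp t ↔ t i ≠ 0 := by
  unfold spp; simp

/-- One reduction step. -/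
theorem carath_step {I V : Type*} [Fintype I] [AddCommGroup V] [Module ℝ V]
    [FiniteDimensional ℝ V] (h : I → V) (t : I → ℝ) (ht : ∀ i, 0 ≤ t i)
    (hc : Module.finrank ℝ V < (spp t).card) :
    ∃ t' : I → ℝ, (∀ i, 0 ≤ t' i) ∧ (∀ i, t i = 0 → t' i = 0) ∧
      ∑ i, t' i • h i = ∑ i, t i • h i ∧ (spp t').card < (spp t).card := by
  classical
  -- a linear relation on the support
  obtain ⟨c, hc0, hsum, i₀, hi₀, hpos⟩ : ∃ c : I → ℝ, (∀ i, t i = 0 → c i = 0) ∧
      ∑ i, c i • h i = 0 ∧ ∃ i₀, t i₀ ≠ 0 ∧ 0 < c i₀ := by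
    have hdep : ¬ LinearIndependent ℝ (fun i : spp t => h i) := by
      intro hli
      have := hli.fintype_card_le_finrank
      rw [Fintype.card_coe] at this
      omega
    rw [Fintype.not_linearIndependent_iff] at hdep
    obtain ⟨g, hg, j, hj⟩ := hdep
    set c : I → ℝ := fun i => if hi : i ∈ spp t then g ⟨i, hi⟩ else 0 with hcdef
    have hcs : ∑ i, c i • h i = 0 := by
      have h1 : ∑ i, c i • h i = ∑ i ∈ spp t, c i • h i := by
        refine (Finset.sum_subset (Finset.subset_univ _) fun i _ hi => ?_).symm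
        simp [hcdef, hi]
      rw [h1, ← Finset.sum_coe_sort (spp t)]
      rw [← hg]
      refine Finset.sum_congr rfl fun i _ => ?_
      simp [hcdef]
    have hcz : ∀ i, t i = 0 → c i = 0 := by
      intro i hi
      have : i ∉ spp t := by rw [mem_spp]; simpa using hi
      simp [hcdef, this]
    have hcj : c j.1 = g j := by simp [hcdef]
    rcases lt_or_gt_of_ne hj with hneg | hpos
    · refine ⟨fun i => -c i, fun i hi => by simp [hcz i hi], ?_, j.1, mem_spp.1 j.2, ?_⟩
      · simp [neg_smul, Finset.sum_neg_distrib, hcs]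
      · simpa [hcj] using hneg
    · exact ⟨c, hcz, hcs, j.1, mem_spp.1 j.2, by simpa [hcj] using hpos⟩
  -- the largest admissible multiple
  set F : Finset I := Finset.univ.filter (fun i => 0 < c i) with hF
  have hFne : F.Nonempty := ⟨i₀, by simp [hF, hpos]⟩
  obtain ⟨j, hjF, hjmin⟩ := F.exists_min_image (fun i => t i / c i) hFne
  have hcj : 0 < c j := by simpa [hF] using hjF
  have htj : t j ≠ 0 := fun h0 => by
    have := hc0 j h0
    linarith
  refine ⟨fun i => t i - t j / c j * c i, ?_, ?_, ?_, ?_⟩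
  · intro i
    rcases le_or_gt (c i) 0 with hle | hgt
    · have h1 : 0 ≤ t j / c j := div_nonneg (ht j) hcj.le
      have h2 : t j / c j * c i ≤ 0 := mul_nonpos_of_nonneg_of_nonpos h1 hle
      have := ht i
      simp only
      linarith
    · have h1 := hjmin i (by simp [hF, hgt])
      have h2 : t j / c j * c i ≤ t i / c i * c i := by
        exact mul_le_mul_of_nonneg_right h1 hgt.le
      rw [div_mul_cancel₀ _ hgt.ne'] at h2
      simp only
      linarith
  · intro i hi
    simp [hi, hc0 i hi]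
  · simp only [sub_smul, mul_smul, Finset.sum_sub_distrib, ← Finset.smul_sum, hsum, smul_zero,
      sub_zero]
  · refine Finset.card_lt_card ?_
    rw [Finset.ssubset_iff_of_subset]
    · refine ⟨j, mem_spp.2 htj, ?_⟩
      rw [mem_spp]
      simp only [not_not]
      rw [div_mul_cancel₀ _ hcj.ne']
      ring
    · intro i hi
      rw [mem_spp] at hi ⊢
      intro h0
      exact hi (by simp [h0, hc0 i h0])

/-- Caratheodory for cones: the support can be made at most the dimension. -/
theorem cone_carath {I V : Type*} [Fintype I] [AddCommGroup V] [Module ℝ V]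
    [FiniteDimensional ℝ V] (h : I → V) (s : I → ℝ) (hs : ∀ i, 0 ≤ s i) :
    ∃ t : I → ℝ, (∀ i, 0 ≤ t i) ∧ (∀ i, s i = 0 → t i = 0) ∧
      ∑ i, t i • h i = ∑ i, s i • h i ∧ (spp t).card ≤ Module.finrank ℝ V := by
  classical
  have key : ∀ N : ℕ, ∀ s : I → ℝ, (∀ i, 0 ≤ s i) → (spp s).card ≤ N →
      ∃ t : I → ℝ, (∀ i, 0 ≤ t i) ∧ (∀ i, s i = 0 → t i = 0) ∧
        ∑ i, t i • h i = ∑ i, s i • h i ∧ (spp t).card ≤ Module.finrank ℝ V := by
    intro N
    induction N with
    | zero =>
      intro s hs hN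
      exact ⟨s, hs, fun i hi => hi, rfl, by omega⟩
    | succ N ih =>
      intro s hs hN
      by_cases hle : (spp s).card ≤ Module.finrank ℝ V
      · exact ⟨s, hs, fun i hi => hi, rfl, hle⟩
      · obtain ⟨t', h1, h2, h3, h4⟩ := carath_step h s hs (by omega)
        obtain ⟨t, g1, g2, g3, g4⟩ := ih t' h1 (by omega)
        exact ⟨t, g1, fun i hi => g2 i (h2 i hi), g3.trans h3, g4⟩
  exact key _ s hs le_rfl

end Pool.Agent.Lib.S3.Hop
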