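import Mathlib
import Pool.Agent.Lib.S3.Hop.Carath

/-!
# One hop (smoothed Hirsch, MP_4a5c02_co)

`hop`: in the chart `N = 1` of the cone `ρ ≥ 0`, from a vertex `u` (rows `I`) towards a point `z`,
keeping exactly the functionals of `K` and `g`.
-/

set_option autoImplicit false

open scoped BigOperators

namespace Pool.Agent.Lib.S3.Hop

/-- Transport of functionals: `t` has the same moments as `s = ρ(z)` for the functionals in `K`
and `g`, with a small support. -/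
theorem moments {ι E : Type*} [DecidableEq ι] [AddCommGroup E] [Module ℝ E]
    (ρ : ι → E →ₗ[ℝ] ℝ) (N : E →ₗ[ℝ] ℝ) (I K : Finset ι) (g : E →ₗ[ℝ] ℝ)
    (hspan : ∀ f : E →ₗ[ℝ] ℝ, ∃ (c : ℝ) (e : ι → ℝ), ∀ y, f y = c * N y + ∑ j ∈ I, e j * ρ j y)
    (hsurj : ∀ s : ι → ℝ, ∃ y, N y = 1 ∧ ∀ j ∈ I, ρ j y = s j)
    (z : E) (hzN : N z = 1) (hz : ∀ j ∈ I, 0 ≤ ρ j z) :
    ∃ (Y : Finset ι) (q : E), Y ⊆ I ∧ Y.card ≤ K.card + 2 ∧ N q = 1 ∧
      (∀ j ∈ I, 0 ≤ ρ j q) ∧ (∀ j ∈ I, j ∉ Y → ρ j q = 0) ∧ (∀ w ∈ K, ρ w q = ρ w z) ∧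
      g q = g z ∧ ∑ j ∈ I, ρ j q = ∑ j ∈ I, ρ j z := by
  classical
  choose cK eK hK using fun w : ι => hspan (ρ w)
  obtain ⟨cg, eg, hg⟩ := hspan g
  -- the columns
  let h : I → ((K → ℝ) × ℝ × ℝ) := fun j => (fun w => eK w.1 j.1, eg j.1, 1)
  obtain ⟨t, ht0, -, hsum, hcard⟩ := cone_carath h (fun j => ρ j.1 z) (fun j => hz j.1 j.2)
  have hfr : Module.finrank ℝ ((K → ℝ) × ℝ × ℝ) = K.card + 2 := by
    simp [Module.finrank_prod]
  rw [hfr] at hcard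
  obtain ⟨q, hqN, hq⟩ := hsurj (fun i => if hi : i ∈ I then t ⟨i, hi⟩ else 0)
  have hqt : ∀ j : I, ρ j.1 q = t j := by
    intro j
    rw [hq j.1 j.2]
    simp
  -- comparison of functionals
  have hcmp : ∀ (f : E →ₗ[ℝ] ℝ) (c : ℝ) (e : ι → ℝ),
      (∀ y, f y = c * N y + ∑ j ∈ I, e j * ρ j y) →
      ∑ j : I, t j * e j.1 = ∑ j : I, ρ j.1 z * e j.1 → f q = f z := by
    intro f c e hf hs
    rw [hf q, hf z, hqN, hzN]
    congr 1
    rw [← Finset.sum_coe_sort I (fun j => e j * ρ j q),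
      ← Finset.sum_coe_sort I (fun j => e j * ρ j z)]
    calc ∑ j : I, e j.1 * ρ j.1 q = ∑ j : I, t j * e j.1 :=
          Finset.sum_congr rfl fun j _ => by rw [hqt j, mul_comm]
      _ = ∑ j : I, ρ j.1 z * e j.1 := hs
      _ = ∑ j : I, e j.1 * ρ j.1 z := Finset.sum_congr rfl fun j _ => by rw [mul_comm]
  have hs1 := congrArg Prod.fst hsum
  have hs2 := congrArg (fun p => p.2.1) hsum
  have hs3 := congrArg (fun p => p.2.2) hsum
  simp only [Prod.fst_sum, Prod.snd_sum, Prod.smul_fst, Prod.smul_snd, h] at hs1 hs2 hs3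
  refine ⟨(spp t).map (Function.Embedding.subtype _), q, ?_, ?_, hqN, ?_, ?_, ?_, ?_, ?_⟩
  · intro i hi
    rw [Finset.mem_map] at hi
    obtain ⟨j, -, rfl⟩ := hi
    exact j.2
  · rw [Finset.card_map]
    exact hcard
  · intro j hj
    rw [hqt ⟨j, hj⟩]
    exact ht0 _
  · intro j hj hjY
    rw [hqt ⟨j, hj⟩]
    by_contra hne
    exact hjY (Finset.mem_map.2 ⟨⟨j, hj⟩, mem_spp.2 hne, rfl⟩)
  · intro w hw
    refine hcmp (ρ w) (cK w) (eK w) (hK w) ?_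
    have := congrFun hs1 ⟨w, hw⟩
    simpa using this
  · refine hcmp g cg eg hg ?_
    simpa using hs2
  · rw [← Finset.sum_coe_sort I (fun j => ρ j q), ← Finset.sum_coe_sort I (fun j => ρ j z)]
    calc ∑ j : I, ρ j.1 q = ∑ j : I, t j := Finset.sum_congr rfl fun j _ => hqt j
      _ = ∑ j : I, ρ j.1 z := by simpa using hs3

/-- One hop. -/
theorem hop {ι E : Type*} [DecidableEq ι] [AddCommGroup E] [Module ℝ E]
    (ρ : ι → E →ₗ[ℝ] ℝ) (N : E →ₗ[ℝ] ℝ) (I K : Finset ι) (g : E →ₗ[ℝ] ℝ)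
    (hspan : ∀ f : E →ₗ[ℝ] ℝ, ∃ (c : ℝ) (e : ι → ℝ), ∀ y, f y = c * N y + ∑ j ∈ I, e j * ρ j y)
    (hsurj : ∀ s : ι → ℝ, ∃ y, N y = 1 ∧ ∀ j ∈ I, ρ j y = s j)
    (u z : E) (huN : N u = 1) (hu : ∀ r, 0 ≤ ρ r u) (huI : ∀ j ∈ I, ρ j u = 0)
    (hzN : N z = 1) (hz : ∀ r, 0 ≤ ρ r z)
    (a A : ℝ) (hA : 0 ≤ A) (ha : ∀ r, r ∉ I → r ∉ K → a ≤ ρ r u)
    (hrep : ∀ r, r ∉ I → r ∉ K → ∃ (γ : ℝ) (α β : ι → ℝ), (∀ j ∈ I, |β j| ≤ A) ∧
      ∀ y, ρ r y = γ * N y + ∑ w ∈ K, α w * ρ w y + ∑ j ∈ I, β j * ρ j y)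
    (S : ℝ) (hS : ∑ j ∈ I, ρ j z ≤ S) (θ : ℝ) (hθ0 : 0 ≤ θ) (hθ1 : θ ≤ 1)
    (hθ : θ * (a + 2 * A * S) ≤ a) :
    ∃ (Y : Finset ι) (p : E), Y ⊆ I ∧ Y.card ≤ K.card + 2 ∧ N p = 1 ∧ (∀ r, 0 ≤ ρ r p) ∧
      (∀ j ∈ I, j ∉ Y → ρ j p = 0) ∧ g p = (1 - θ) * g u + θ * g z := by
  classical
  obtain ⟨Y, q, hYI, hYc, hqN, hq0, hqY, hqK, hqg, hqS⟩ :=
    moments ρ N I K g hspan hsurj z hzN fun j _ => hz j
  have hp : ∀ f : E →ₗ[ℝ] ℝ, f ((1 - θ) • u + θ • q) = (1 - θ) * f u + θ * f q := by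
    intro f; simp
  refine ⟨Y, (1 - θ) • u + θ • q, hYI, hYc, ?_, ?_, ?_, ?_⟩
  · rw [hp, huN, hqN]; ring
  · intro r
    rw [hp]
    by_cases hrI : r ∈ I
    · rw [huI r hrI]
      have := mul_nonneg hθ0 (hq0 r hrI)
      linarith
    by_cases hrK : r ∈ K
    · rw [hqK r hrK]
      have h1 := mul_nonneg (sub_nonneg.2 hθ1) (hu r)
      have h2 := mul_nonneg hθ0 (hz r)
      linarith
    -- the other rows
    obtain ⟨γ, α, β, hβ, hrep'⟩ := hrep r hrI hrK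
    have hdiff : ρ r q - ρ r z = ∑ j ∈ I, β j * (ρ j q - ρ j z) := by
      rw [hrep' q, hrep' z, hqN, hzN]
      have : ∑ w ∈ K, α w * ρ w q = ∑ w ∈ K, α w * ρ w z :=
        Finset.sum_congr rfl fun w hw => by rw [hqK w hw]
      rw [this]
      simp only [mul_sub, Finset.sum_sub_distrib]
      ring
    have hbd : -(2 * A * S) ≤ ρ r q - ρ r z := by
      rw [hdiff]
      have h1 : ∀ j ∈ I, -(A * (ρ j q + ρ j z)) ≤ β j * (ρ j q - ρ j z) := by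
        intro j hj
        have h2 : |β j * (ρ j q - ρ j z)| ≤ A * (ρ j q + ρ j z) := by
          rw [abs_mul]
          refine mul_le_mul (hβ j hj) ?_ (abs_nonneg _) hA
          rw [abs_le]
          constructor <;> linarith [hq0 j hj, hz j]
        exact (abs_le.1 h2).1
      have h3 := Finset.sum_le_sum h1
      have h4 : ∑ j ∈ I, -(A * (ρ j q + ρ j z)) = -(A * (∑ j ∈ I, ρ j q + ∑ j ∈ I, ρ j z)) := by
        rw [Finset.sum_neg_distrib, ← Finset.sum_add_distrib, Finset.mul_sum]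
      rw [h4, hqS] at h3
      have h5 : A * (∑ j ∈ I, ρ j z + ∑ j ∈ I, ρ j z) ≤ 2 * A * S := by
        have := mul_le_mul_of_nonneg_left hS hA
        linarith
      linarith
    have h6 : (1 - θ) * a ≤ (1 - θ) * ρ r u :=
      mul_le_mul_of_nonneg_left (ha r hrI hrK) (sub_nonneg.2 hθ1)
    have h7 : θ * (-(2 * A * S)) ≤ θ * ρ r q := by
      refine mul_le_mul_of_nonneg_left ?_ hθ0
      have := hz r
      linarith
    have h8 : 0 ≤ (1 - θ) * a - θ * (2 * A * S) := by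
      have : (1 - θ) * a - θ * (2 * A * S) = a - θ * (a + 2 * A * S) := by ring
      rw [this]; linarith
    linarith
  · intro j hj hjY
    rw [hp, huI j hj, hqY j hj hjY]
    ring
  · rw [hp, hqg]

end Pool.Agent.Lib.S3.Hop
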