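import Mathlib
import Pool.Agent.Lib.S3.Hop.Hop

/-!
# Hops to the hub (smoothed Hirsch, MP_4a5c02_co)

Deterministic part: from every finite vertex a bounded number of hops (each between two vertices
with at least half of their rows in common) leads to the minimiser `h` of `g`.
-/

set_option autoImplicit false

open scoped BigOperators

namespace Pool.Agent.Lib.S3.Hop

open Classical in
/-- The rows which vanish at `u`. -/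
noncomputable def tig {ι E : Type*} [Fintype ι] [AddCommGroup E] [Module ℝ E]
    (ρ : ι → E →ₗ[ℝ] ℝ) (u : E) : Finset ι :=
  Finset.univ.filter (fun r => ρ r u = 0)

theorem mem_tig {ι E : Type*} [Fintype ι] [AddCommGroup E] [Module ℝ E]
    {ρ : ι → E →ₗ[ℝ] ℝ} {u : E} {r : ι} : r ∈ tig ρ u ↔ ρ r u = 0 := by
  unfold tig; simp

/-- The slice `N = 1` of the cone `ρ ≥ 0`. -/
def Hat {ι E : Type*} [AddCommGroup E] [Module ℝ E]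
    (ρ : ι → E →ₗ[ℝ] ℝ) (N : E →ₗ[ℝ] ℝ) : Set E :=
  {y | N y = 1 ∧ ∀ r, 0 ≤ ρ r y}

/-- A vertex of the slice: `n` tight rows, which together with `N` form a basis of the dual. -/
structure Vtx {ι E : Type*} [Fintype ι] [AddCommGroup E] [Module ℝ E]
    (ρ : ι → E →ₗ[ℝ] ℝ) (N : E →ₗ[ℝ] ℝ) (n : ℕ) (u : E) : Prop where
  mem : u ∈ Hat ρ N
  card : (tig ρ u).card = n
  span : ∀ f : E →ₗ[ℝ] ℝ, ∃ (c : ℝ) (e : ι → ℝ),
    ∀ y, f y = c * N y + ∑ j ∈ tig ρ u, e j * ρ j y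
  surj : ∀ s : ι → ℝ, ∃ y, N y = 1 ∧ ∀ j ∈ tig ρ u, ρ j y = s j

/-- The structure at a vertex which is used by a hop: the rows outside `I ∪ K` have slack at least
`a` and are, modulo `N` and the rows of `K`, combinations of the rows of `I` with coefficients
at most `A`. -/
def Str {ι E : Type*} [Fintype ι] [AddCommGroup E] [Module ℝ E]
    (ρ : ι → E →ₗ[ℝ] ℝ) (N : E →ₗ[ℝ] ℝ) (k : ℕ) (a A : ℝ) (u : E) : Prop :=
  ∃ K : Finset ι, K.card ≤ k ∧ (∀ r, r ∉ tig ρ u → r ∉ K → a ≤ ρ r u) ∧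
    ∀ r, r ∉ tig ρ u → r ∉ K → ∃ (γ : ℝ) (α β : ι → ℝ), (∀ j ∈ tig ρ u, |β j| ≤ A) ∧
      ∀ y, ρ r y = γ * N y + ∑ w ∈ K, α w * ρ w y + ∑ j ∈ tig ρ u, β j * ρ j y

variable {ι E : Type*} [Fintype ι] [DecidableEq ι] [AddCommGroup E] [Module ℝ E]

/-- One hop: the next vertex shares all but `k + 2` rows, and the gap shrinks. -/
theorem hop_step (ρ : ι → E →ₗ[ℝ] ℝ) (N : E →ₗ[ℝ] ℝ) (n k : ℕ) (a A S θ : ℝ) (hA : 0 ≤ A)
    (hface : ∀ (R : Finset ι) (g : E →ₗ[ℝ] ℝ), (∃ p ∈ Hat ρ N, ∀ r ∈ R, ρ r p = 0) →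
      ∃ u', Vtx ρ N n u' ∧ (∀ r ∈ R, ρ r u' = 0) ∧
        ∀ p ∈ Hat ρ N, (∀ r ∈ R, ρ r p = 0) → g u' ≤ g p)
    (g : E →ₗ[ℝ] ℝ) (u z : E) (hu : Vtx ρ N n u) (hstr : Str ρ N k a A u)
    (hz : z ∈ Hat ρ N) (hS : ∀ I : Finset ι, ∑ j ∈ I, ρ j z ≤ S)
    (hθ0 : 0 ≤ θ) (hθ1 : θ ≤ 1) (hθ : θ * (a + 2 * A * S) ≤ a) :
    ∃ u', Vtx ρ N n u' ∧ n ≤ (tig ρ u ∩ tig ρ u').card + (k + 2) ∧
      g u' ≤ (1 - θ) * g u + θ * g z := by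
  classical
  obtain ⟨K, hKc, hKa, hKr⟩ := hstr
  obtain ⟨Y, p, hYI, hYc, hpN, hp0, hpI, hpg⟩ :=
    hop ρ N (tig ρ u) K g hu.span hu.surj u z hu.mem.1 hu.mem.2 (fun j hj => mem_tig.1 hj)
      hz.1 hz.2 a A hA hKa hKr S (hS _) θ hθ0 hθ1 hθ
  obtain ⟨u', hu', hu'R, hu'g⟩ := hface (tig ρ u \ Y) g ⟨p, ⟨hpN, hp0⟩, fun r hr => by
    rw [Finset.mem_sdiff] at hr
    exact hpI r hr.1 hr.2⟩
  refine ⟨u', hu', ?_, ?_⟩
  · have h1 : tig ρ u \ Y ⊆ tig ρ u ∩ tig ρ u' := by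
      intro r hr
      rw [Finset.mem_inter]
      exact ⟨(Finset.mem_sdiff.1 hr).1, mem_tig.2 (hu'R r hr)⟩
    have h2 := Finset.card_le_card h1
    have h3 := Finset.card_sdiff_add_card_eq_card hYI
    have h4 := hu.card
    omega
  · rw [← hpg]
    refine hu'g p ⟨hpN, hp0⟩ fun r hr => ?_
    rw [Finset.mem_sdiff] at hr
    exact hpI r hr.1 hr.2

/-- The chain of hops. -/
theorem hops (ρ : ι → E →ₗ[ℝ] ℝ) (N : E →ₗ[ℝ] ℝ) (n k : ℕ) (a A S θ : ℝ) (hA : 0 ≤ A)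
    (hface : ∀ (R : Finset ι) (g : E →ₗ[ℝ] ℝ), (∃ p ∈ Hat ρ N, ∀ r ∈ R, ρ r p = 0) →
      ∃ u', Vtx ρ N n u' ∧ (∀ r ∈ R, ρ r u' = 0) ∧
        ∀ p ∈ Hat ρ N, (∀ r ∈ R, ρ r p = 0) → g u' ≤ g p)
    (g : E →ₗ[ℝ] ℝ) (o : ι)
    (hstr : ∀ u, Vtx ρ N n u → ρ o u ≠ 0 → Str ρ N k a A u)
    (z X : E) (hz : z ∈ Hat ρ N) (hzX : g z ≤ g X)
    (hS : ∀ I : Finset ι, ∑ j ∈ I, ρ j z ≤ S)
    (hθ0 : 0 ≤ θ) (hθ1 : θ ≤ 1) (hθ : θ * (a + 2 * A * S) ≤ a)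
    (G : ℝ) (hG : ∀ y ∈ Hat ρ N, g y ≤ G) (hGX : (1 - θ) * G + θ * g X < 0)
    (hgo : ∀ y ∈ Hat ρ N, ρ o y = 0 → 0 ≤ g y)
    (L κ : ℕ) (hκ : k + 2 ≤ κ) (Rch : ℕ → E → E → Prop)
    (hrefl : ∀ u, Vtx ρ N n u → Rch 0 u u)
    (htrans : ∀ i j u v w, Rch i u v → Rch j v w → Rch (i + j) u w)
    (hPL : ∀ u v, Vtx ρ N n u → Vtx ρ N n v → ρ o u ≠ 0 → ρ o v ≠ 0 →
      n ≤ (tig ρ u ∩ tig ρ v).card + κ → Rch L u v)
    (t : ℕ) (u : E) (hu : Vtx ρ N n u) (huo : ρ o u ≠ 0) :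
    ∃ u', Vtx ρ N n u' ∧ ρ o u' ≠ 0 ∧ Rch (t * L) u u' ∧
      g u' - g z ≤ (1 - θ) ^ t * (g u - g z) := by
  induction t with
  | zero => exact ⟨u, hu, huo, by simpa using hrefl u hu, by simp⟩
  | succ t ih =>
    obtain ⟨v, hv, hvo, hreach, hgap⟩ := ih
    obtain ⟨u', hu', hcom, hg⟩ := hop_step ρ N n k a A S θ hA hface g v z hv (hstr v hv hvo) hz hS
      hθ0 hθ1 hθ
    have hneg : g u' < 0 := by
      have h1 : (1 - θ) * g v ≤ (1 - θ) * G :=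
        mul_le_mul_of_nonneg_left (hG v hv.mem) (sub_nonneg.2 hθ1)
      have h2 : θ * g z ≤ θ * g X := mul_le_mul_of_nonneg_left hzX hθ0
      linarith
    have huo' : ρ o u' ≠ 0 := by
      intro h0
      have := hgo u' hu'.mem h0
      linarith
    refine ⟨u', hu', huo', ?_, ?_⟩
    · have := htrans _ _ _ _ _ hreach (hPL v u' hv hu' hvo huo' (hcom.trans (by omega)))
      rwa [← Nat.succ_mul] at this
    · have h1 : g u' - g z ≤ (1 - θ) * (g v - g z) := by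
        have : (1 - θ) * g v + θ * g z - g z = (1 - θ) * (g v - g z) := by ring
        linarith
      refine h1.trans ?_
      rw [pow_succ, mul_comm ((1 - θ) ^ t), mul_assoc]
      exact mul_le_mul_of_nonneg_left hgap (sub_nonneg.2 hθ1)

/-- The last hop: small gap, few small multipliers and few near tight rows give many common
rows. -/
theorem last_hop (ρ : ι → E →ₗ[ℝ] ℝ) (N : E →ₗ[ℝ] ℝ) (n k₁ k₂ : ℕ) (g : E →ₗ[ℝ] ℝ) (h w : E)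
    (hh : Vtx ρ N n h) (hw : Vtx ρ N n w) (lam : ι → ℝ) (γ : ℝ)
    (hlam : ∀ r ∈ tig ρ h, 0 ≤ lam r)
    (hid : ∀ y, g y = γ * N y + ∑ r ∈ tig ρ h, lam r * ρ r y)
    (τ a : ℝ) (hτ : 0 < τ)
    (hsmall : ((tig ρ h).filter (fun r => lam r < τ)).card ≤ k₁)
    (hnear : (Finset.univ.filter (fun r => 0 < ρ r w ∧ ρ r w ≤ a)).card ≤ k₂)
    (hgap : g w - g h ≤ τ * a) :
    n ≤ (tig ρ w ∩ tig ρ h).card + (k₁ + k₂) := by
  classical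
  have hgh : g h = γ := by
    rw [hid h, hh.mem.1]
    have : ∑ r ∈ tig ρ h, lam r * ρ r h = 0 :=
      Finset.sum_eq_zero fun r hr => by rw [mem_tig.1 hr, mul_zero]
    rw [this]; ring
  have hgw : g w - g h = ∑ r ∈ tig ρ h, lam r * ρ r w := by
    rw [hgh, hid w, hw.mem.1]; ring
  have hrow : ∀ r ∈ tig ρ h, τ ≤ lam r → ρ r w ≤ a := by
    intro r hr hτr
    have h1 : lam r * ρ r w ≤ τ * a := by
      refine le_trans ?_ (hgw ▸ hgap)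
      exact Finset.single_le_sum (f := fun r => lam r * ρ r w)
        (fun r hr => mul_nonneg (hlam r hr) (hw.mem.2 r)) hr
    have h2 : τ * ρ r w ≤ lam r * ρ r w := mul_le_mul_of_nonneg_right hτr (hw.mem.2 r)
    exact le_of_mul_le_mul_left (h2.trans h1) hτ
  have hsub : tig ρ h ⊆ (tig ρ w ∩ tig ρ h) ∪ ((tig ρ h).filter (fun r => lam r < τ) ∪
      Finset.univ.filter (fun r => 0 < ρ r w ∧ ρ r w ≤ a)) := by
    intro r hr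
    rw [Finset.mem_union, Finset.mem_union, Finset.mem_inter, Finset.mem_filter, Finset.mem_filter]
    by_cases h1 : lam r < τ
    · exact Or.inr (Or.inl ⟨hr, h1⟩)
    · have h2 := hrow r hr (not_lt.1 h1)
      rcases (hw.mem.2 r).eq_or_lt with h0 | h0
      · exact Or.inl ⟨mem_tig.2 h0.symm, hr⟩
      · exact Or.inr (Or.inr ⟨Finset.mem_univ _, h0, h2⟩)
  have h5 := Finset.card_le_card hsub
  have h6 := Finset.card_union_le (tig ρ w ∩ tig ρ h)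
    ((tig ρ h).filter (fun r => lam r < τ) ∪ Finset.univ.filter (fun r => 0 < ρ r w ∧ ρ r w ≤ a))
  have h7 := Finset.card_union_le ((tig ρ h).filter (fun r => lam r < τ))
    (Finset.univ.filter (fun r => 0 < ρ r w ∧ ρ r w ≤ a))
  have h8 := hh.card
  omega

/-- **Hops.** Every finite vertex is joined to the minimiser `h` of `g`. -/
theorem hub (ρ : ι → E →ₗ[ℝ] ℝ) (N : E →ₗ[ℝ] ℝ) (n k k₁ k₂ : ℕ) (a A S θ τ : ℝ) (hA : 0 ≤ A)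
    (hface : ∀ (R : Finset ι) (g : E →ₗ[ℝ] ℝ), (∃ p ∈ Hat ρ N, ∀ r ∈ R, ρ r p = 0) →
      ∃ u', Vtx ρ N n u' ∧ (∀ r ∈ R, ρ r u' = 0) ∧
        ∀ p ∈ Hat ρ N, (∀ r ∈ R, ρ r p = 0) → g u' ≤ g p)
    (g : E →ₗ[ℝ] ℝ) (o : ι)
    (hstr : ∀ u, Vtx ρ N n u → ρ o u ≠ 0 → Str ρ N k a A u)
    (hnear : ∀ u, Vtx ρ N n u → ρ o u ≠ 0 →
      (Finset.univ.filter (fun r => 0 < ρ r u ∧ ρ r u ≤ a)).card ≤ k₂)
    (h X : E) (hh : Vtx ρ N n h) (hmin : ∀ y ∈ Hat ρ N, g h ≤ g y) (hX : X ∈ Hat ρ N)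
    (hS : ∀ I : Finset ι, ∑ j ∈ I, ρ j h ≤ S)
    (hθ0 : 0 ≤ θ) (hθ1 : θ ≤ 1) (hθ : θ * (a + 2 * A * S) ≤ a)
    (G : ℝ) (hG : ∀ y ∈ Hat ρ N, g y ≤ G) (hG0 : 0 ≤ G) (hGX : (1 - θ) * G + θ * g X < 0)
    (hgo : ∀ y ∈ Hat ρ N, ρ o y = 0 → 0 ≤ g y)
    (lam : ι → ℝ) (γ : ℝ) (hlam : ∀ r ∈ tig ρ h, 0 ≤ lam r)
    (hid : ∀ y, g y = γ * N y + ∑ r ∈ tig ρ h, lam r * ρ r y) (hτ : 0 < τ)
    (hsmall : ((tig ρ h).filter (fun r => lam r < τ)).card ≤ k₁)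
    (L κ : ℕ) (hκ : k + 2 ≤ κ) (hκ' : k₁ + k₂ ≤ κ) (Rch : ℕ → E → E → Prop)
    (hrefl : ∀ u, Vtx ρ N n u → Rch 0 u u)
    (htrans : ∀ i j u v w, Rch i u v → Rch j v w → Rch (i + j) u w)
    (hPL : ∀ u v, Vtx ρ N n u → Vtx ρ N n v → ρ o u ≠ 0 → ρ o v ≠ 0 →
      n ≤ (tig ρ u ∩ tig ρ v).card + κ → Rch L u v)
    (t : ℕ) (Γ : ℝ) (hΓ : ∀ y ∈ Hat ρ N, g y - g h ≤ Γ) (ht : (1 - θ) ^ t * Γ ≤ τ * a)
    (u : E) (hu : Vtx ρ N n u) (huo : ρ o u ≠ 0) :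
    Rch ((t + 1) * L) u h := by
  obtain ⟨w, hw, hwo, hreach, hgap⟩ := hops ρ N n k a A S θ hA hface g o hstr h X hh.mem
    (hmin X hX) hS hθ0 hθ1 hθ G hG hGX hgo L κ hκ Rch hrefl htrans hPL t u hu huo
  have hgX : g X < 0 := by
    by_contra hcon
    have h1 : 0 ≤ (1 - θ) * G := mul_nonneg (sub_nonneg.2 hθ1) hG0
    have h2 : 0 ≤ θ * g X := mul_nonneg hθ0 (not_lt.1 hcon)
    linarith
  have hho : ρ o h ≠ 0 := by
    intro h0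
    have h1 := hgo h hh.mem h0
    have h2 := hmin X hX
    linarith
  have hgap' : g w - g h ≤ τ * a := by
    refine hgap.trans (le_trans ?_ ht)
    exact mul_le_mul_of_nonneg_left (hΓ u hu.mem) (pow_nonneg (sub_nonneg.2 hθ1) t)
  have hcom := last_hop ρ N n k₁ k₂ g h w hh hw lam γ hlam hid τ a hτ hsmall (hnear w hw hwo) hgap'
  have := htrans _ _ _ _ _ hreach (hPL w h hw hh hwo hho (hcom.trans (by omega)))
  rwa [← Nat.succ_mul] at this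

end Pool.Agent.Lib.S3.Hop
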