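import Pool.Agent.Lib.S3.Hop.Main
import Pool.Agent.Lib.S3.Geo.ChartN

/-!
# Hops in the chart (smoothed Hirsch, MP_4a5c02_co)

Adapter from the abstract hops to the geometry layer `Geo`.
-/

set_option autoImplicit false

namespace Pool.Agent.Lib.S3.Hop

open Pool.Agent.Lib.S3 Pool.Agent.Lib.S3.Geo
open Pool.Agent.Lib.SHirsch (Gr GPos)

variable {m n : ℕ}

/-- The functional `y ↦ v ⬝ᵥ y`. -/
def dl {d : ℕ} (v : Fin d → ℝ) : (Fin d → ℝ) →ₗ[ℝ] ℝ where
  toFun y := v ⬝ᵥ y
  map_add' := dotProduct_add v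
  map_smul' c y := by simp [dotProduct_smul]

theorem dl_apply {d : ℕ} (v y : Fin d → ℝ) : dl v y = v ⬝ᵥ y := rfl

theorem exists_dl {d : ℕ} (f : (Fin d → ℝ) →ₗ[ℝ] ℝ) : ∃ v : Fin d → ℝ, f = dl v := by
  refine ⟨fun j => f (Pi.single j 1), ?_⟩
  ext j
  simp [dl_apply]

/-- The slack of the row `o` as a functional. -/
def slk (a : Fin m → Fin n → ℝ) (b : Fin m → ℝ) (o : Option (Fin m)) :
    (Fin (n + 1) → ℝ) →ₗ[ℝ] ℝ := dl (-(Gr a b o))

theorem slk_apply (a : Fin m → Fin n → ℝ) (b : Fin m → ℝ) (o : Option (Fin m))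
    (y : Fin (n + 1) → ℝ) : slk a b o y = -(Gr a b o ⬝ᵥ y) := by
  unfold slk
  rw [dl_apply, neg_dotProduct]

theorem mem_hat_iff (a : Fin m → Fin n → ℝ) (b : Fin m → ℝ) (N y : Fin (n + 1) → ℝ) :
    y ∈ Hat (slk a b) (dl N) ↔ y ∈ Chart a b N := by
  unfold Hat Chart Pol
  constructor
  · rintro ⟨h1, h2⟩
    refine ⟨fun i hi => ?_, fun i hi => ?_⟩
    · rw [Finset.mem_singleton] at hi
      subst hi
      exact h1
    · match i with
      | none => simp [chS] at hi
      | some o =>
        have := h2 o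
        rw [slk_apply] at this
        show Gr a b o ⬝ᵥ y ≤ 0
        linarith
  · rintro ⟨h1, h2⟩
    refine ⟨h1 none (Finset.mem_singleton_self _), fun o => ?_⟩
    rw [slk_apply]
    have : Gr a b o ⬝ᵥ y ≤ 0 := h2 (some o) (by simp [chS])
    linarith

theorem univ_chS (T : Finset (Option (Option (Fin m)))) (hT : none ∈ T) :
    T ∪ chS m = Finset.univ := by
  ext o
  simp only [Finset.mem_union, Finset.mem_univ, iff_true, chS, Finset.mem_erase, and_true]
  by_cases ho : o = none
  · exact Or.inl (ho ▸ hT)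
  · exact Or.inr ho

/-- The tight rows in the two descriptions. -/
theorem tt_eq (a : Fin m → Fin n → ℝ) (b : Fin m → ℝ) {N y : Fin (n + 1) → ℝ}
    (hN : N ⬝ᵥ y = 1) :
    tt (chA a b N) (chB m) Finset.univ y =
      insert none ((tig (slk a b) y).map ⟨some, Option.some_injective _⟩) := by
  ext o
  rw [mem_tt, Finset.mem_insert, Finset.mem_map]
  match o with
  | none => simp [chA, chB, hN]
  | some o =>
    constructor
    · rintro ⟨-, h⟩
      refine Or.inr ⟨o, mem_tig.2 ?_, rfl⟩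
      have h' : Gr a b o ⬝ᵥ y = 0 := h
      rw [slk_apply, h', neg_zero]
    · rintro (h | ⟨o', ho', h⟩)
      · exact absurd h (by simp)
      · have h1 : o' = o := Option.some_injective _ h
        subst h1
        refine ⟨Finset.mem_univ _, ?_⟩
        have := mem_tig.1 ho'
        rw [slk_apply] at this
        show Gr a b o' ⬝ᵥ y = 0
        linarith

theorem card_tt (a : Fin m → Fin n → ℝ) (b : Fin m → ℝ) {N y : Fin (n + 1) → ℝ}
    (hN : N ⬝ᵥ y = 1) :
    (tt (chA a b N) (chB m) Finset.univ y).card = (tig (slk a b) y).card + 1 := by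
  classical
  rw [tt_eq a b hN, Finset.card_insert_of_notMem (by simp), Finset.card_map]

/-- The common tight rows in the two descriptions. -/
theorem card_tt_inter (a : Fin m → Fin n → ℝ) (b : Fin m → ℝ) {N x y : Fin (n + 1) → ℝ}
    (hNx : N ⬝ᵥ x = 1) (hNy : N ⬝ᵥ y = 1) :
    (tt (chA a b N) (chB m) Finset.univ x ∩ tt (chA a b N) (chB m) Finset.univ y).card =
      (tig (slk a b) x ∩ tig (slk a b) y).card + 1 := by
  classical
  rw [tt_eq a b hNx, tt_eq a b hNy, ← Finset.insert_inter_distrib, ← Finset.map_inter,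
    Finset.card_insert_of_notMem (by simp), Finset.card_map]

/-- A vertex of the chart is a vertex of the slice. -/
theorem vtx_of_vert {a : Fin m → Fin n → ℝ} {b : Fin m → ℝ} {N : Fin (n + 1) → ℝ}
    (hG : GP (chA a b N) (chB m) {none}) {u : Fin (n + 1) → ℝ}
    (hu : Vert (chA a b N) (chB m) {none} (chS m) u) : Vtx (slk a b) (dl N) n u := by
  classical
  have hmem : u ∈ Hat (slk a b) (dl N) := (mem_hat_iff a b N u).2 hu.1
  have hN : N ⬝ᵥ u = 1 := hmem.1
  have hcard : (tt (chA a b N) (chB m) Finset.univ u).card = n + 1 := by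
    have := hu.2
    rwa [univ_chS {none} (Finset.mem_singleton_self _)] at this
  have hc := card_tt a b hN
  refine ⟨hmem, by omega, ?_, ?_⟩
  · intro f
    obtain ⟨v, rfl⟩ := exists_dl f
    obtain ⟨l, hl⟩ := exists_mult hG hcard v
    refine ⟨l none, fun o => -(l (some o)), fun y => ?_⟩
    unfold IsMult at hl
    rw [dl_apply, hl, tt_eq a b hN, Finset.sum_insert (by simp), Finset.sum_map, add_dotProduct,
      sum_dotProduct, smul_dotProduct, smul_eq_mul]
    congr 1
    refine Finset.sum_congr rfl fun o _ => ?_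
    rw [smul_dotProduct, smul_eq_mul, slk_apply]
    show l (some o) * (Gr a b o ⬝ᵥ y) = _
    ring
  · intro s
    have hd : ∀ o : Option (Fin m), ∃ r : Fin (n + 1) → ℝ, o ∈ tig (slk a b) u →
        (N ⬝ᵥ r = 0 ∧ slk a b o r = 1 ∧ ∀ j ∈ tig (slk a b) u, j ≠ o → slk a b j r = 0) := by
      intro o
      by_cases ho : o ∈ tig (slk a b) u
      · have hi : some o ∈ tt (chA a b N) (chB m) Finset.univ u := by
          rw [tt_eq a b hN, Finset.mem_insert, Finset.mem_map]
          exact Or.inr ⟨o, ho, rfl⟩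
        obtain ⟨r, hr1, hr0⟩ := dir_exists hG hcard hi
        refine ⟨r, fun _ => ⟨?_, ?_, ?_⟩⟩
        · exact hr0 none (by rw [tt_eq a b hN]; exact Finset.mem_insert_self _ _) (by simp)
        · rw [slk_apply]
          have : Gr a b o ⬝ᵥ r = -1 := hr1
          rw [this]; norm_num
        · intro j hj hjo
          rw [slk_apply]
          have : Gr a b j ⬝ᵥ r = 0 := hr0 (some j) (by
            rw [tt_eq a b hN, Finset.mem_insert, Finset.mem_map]
            exact Or.inr ⟨j, hj, rfl⟩) (by simpa using hjo)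
          rw [this, neg_zero]
      · exact ⟨0, fun h => absurd h ho⟩
    choose r hr using hd
    refine ⟨u + ∑ o ∈ tig (slk a b) u, s o • r o, ?_, ?_⟩
    · rw [dl_apply, dotProduct_add, hN, dotProduct_sum]
      have : ∑ o ∈ tig (slk a b) u, N ⬝ᵥ (s o • r o) = 0 :=
        Finset.sum_eq_zero fun o ho => by rw [dotProduct_smul, (hr o ho).1, smul_zero]
      rw [this, add_zero]
    · intro j hj
      rw [map_add, map_sum, mem_tig.1 hj, zero_add, Finset.sum_eq_single_of_mem j hj]
      · rw [map_smul, (hr j hj).2.1, smul_eq_mul, mul_one]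
      · intro o ho hoj
        rw [map_smul, (hr o ho).2.2 j hj (Ne.symm hoj), smul_zero]

/-- A vertex of the slice is a vertex of the chart. -/
theorem vert_of_vtx {a : Fin m → Fin n → ℝ} {b : Fin m → ℝ} {N : Fin (n + 1) → ℝ}
    {u : Fin (n + 1) → ℝ} (hu : Vtx (slk a b) (dl N) n u) :
    Vert (chA a b N) (chB m) {none} (chS m) u := by
  refine ⟨(mem_hat_iff a b N u).1 hu.mem, ?_⟩
  rw [univ_chS {none} (Finset.mem_singleton_self _), card_tt a b hu.mem.1, hu.card]

/-- Every nonempty face of the chart has a minimiser of every functional which is a vertex. -/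
theorem face_opt {a : Fin m → Fin n → ℝ} {b : Fin m → ℝ} {N : Fin (n + 1) → ℝ}
    (hG : GP (chA a b N) (chB m) {none}) (hbd : Bornology.IsBounded (Chart a b N))
    (R : Finset (Option (Fin m))) (g : (Fin (n + 1) → ℝ) →ₗ[ℝ] ℝ)
    (hne : ∃ p ∈ Hat (slk a b) (dl N), ∀ r ∈ R, slk a b r p = 0) :
    ∃ u', Vtx (slk a b) (dl N) n u' ∧ (∀ r ∈ R, slk a b r u' = 0) ∧
      ∀ p ∈ Hat (slk a b) (dl N), (∀ r ∈ R, slk a b r p = 0) → g u' ≤ g p := by
  classical
  set T : Finset (Option (Option (Fin m))) :=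
    insert none (R.map ⟨some, Option.some_injective _⟩) with hT
  have hnT : none ∈ T := Finset.mem_insert_self _ _
  have hmem : ∀ p : Fin (n + 1) → ℝ, p ∈ Pol (chA a b N) (chB m) T (chS m) ↔
      p ∈ Hat (slk a b) (dl N) ∧ ∀ r ∈ R, slk a b r p = 0 := by
    intro p
    rw [mem_hat_iff]
    constructor
    · rintro ⟨h1, h2⟩
      refine ⟨⟨fun i hi => ?_, h2⟩, fun r hr => ?_⟩
      · rw [Finset.mem_singleton] at hi
        subst hi
        exact h1 none hnT
      · have h3 : Gr a b r ⬝ᵥ p = 0 := h1 (some r) (by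
          rw [hT, Finset.mem_insert, Finset.mem_map]
          exact Or.inr ⟨r, hr, rfl⟩)
        rw [slk_apply, h3, neg_zero]
    · rintro ⟨⟨h1, h2⟩, h3⟩
      refine ⟨fun i hi => ?_, h2⟩
      rw [hT, Finset.mem_insert, Finset.mem_map] at hi
      rcases hi with rfl | ⟨r, hr, rfl⟩
      · exact h1 none (Finset.mem_singleton_self _)
      · have := h3 r hr
        rw [slk_apply] at this
        show Gr a b r ⬝ᵥ p = 0
        linarith
  obtain ⟨v, rfl⟩ := exists_dl g
  have hne' : (Pol (chA a b N) (chB m) T (chS m)).Nonempty := by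
    obtain ⟨p, hp, hpR⟩ := hne
    exact ⟨p, (hmem p).2 ⟨hp, hpR⟩⟩
  have hbd' : Bornology.IsBounded (Pol (chA a b N) (chB m) T (chS m)) := by
    refine hbd.subset fun p hp => ?_
    exact (mem_hat_iff a b N p).1 ((hmem p).1 hp).1
  obtain ⟨x, hx, hxo⟩ := exists_opt hG (Finset.singleton_subset_iff.2 hnT) hne' hbd' (-v)
  have hxm := (hmem x).1 hx.1
  have hxV : Vert (chA a b N) (chB m) {none} (chS m) x := by
    refine ⟨(mem_hat_iff a b N x).1 hxm.1, ?_⟩
    have := hx.2
    rw [univ_chS T hnT] at this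
    rw [univ_chS {none} (Finset.mem_singleton_self _)]
    exact this
  refine ⟨x, vtx_of_vert hG hxV, hxm.2, fun p hp hpR => ?_⟩
  have := hxo.2 p ((hmem p).2 ⟨hp, hpR⟩)
  rw [neg_dotProduct, neg_dotProduct] at this
  rw [dl_apply, dl_apply]
  linarith

end Pool.Agent.Lib.S3.Hop
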