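import Pool.Agent.Lib.S3.Hop.ChartHub
import Pool.Agent.Lib.S3.PointsN

/-!
# The hub theorem in the chart (smoothed Hirsch, MP_4a5c02_co)

`hub_chart`: `Hop.hub` for chart vertices. `str_of_det`: the structure used by a hop from the
determinant bound and the near tight count. `hub_final`: the hub functional
`Σ g_i slack_i - Θ slack_∞` with coins `g`.
-/

set_option autoImplicit false

namespace Pool.Agent.Lib.S3.Hop

open Pool.Agent.Lib.S3 Pool.Agent.Lib.S3.Geo
open Pool.Agent.Lib.SHirsch (Gr GPos)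

variable {m n : ℕ}

open Classical in
/-- The rows with slack in `(0, c]`. -/
noncomputable def nearC (a : Fin m → Fin n → ℝ) (b : Fin m → ℝ) (c : ℝ) (u : Fin (n + 1) → ℝ) :
    Finset (Option (Fin m)) :=
  Finset.univ.filter (fun o => 0 < slk a b o u ∧ slk a b o u ≤ c)

/-- The structure at a chart vertex from the determinant bound and the near tight count. -/
theorem str_of_det {a : Fin m → Fin n → ℝ} {b : Fin m → ℝ} {N : Fin (n + 1) → ℝ}
    {u : Fin (n + 1) → ℝ} (hu : u ∈ Chart a b N) (J : Fin n → Option (Fin m))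
    (hJ : ∀ o, o ∈ tig (slk a b) u ↔ ∃ k, J k = o) (hJi : Function.Injective J)
    (Mb ε c : ℝ) (w k : ℕ) (hMb : 0 ≤ Mb) (hρ : ∀ o j, |Gr a b o j| ≤ Mb) (hN : ∀ j, |N j| ≤ Mb)
    (hε0 : 0 < ε) (hε1 : ε ≤ 1)
    (hdet : ((n + 1).factorial : ℝ) * Mb ^ (n + 1) * ε ^ (w + 1) <
      |(Matrix.of (Fin.cons N (fun k => -(Gr a b (J k))) : Fin (n + 1) → Fin (n + 1) → ℝ)).det|)
    (hk : (nearC a b c u).card ≤ k) :
    Str (slk a b) (dl N) (w + k) c (1 / ε) u := by
  classical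
  obtain ⟨W, hWJ, hWc, hW⟩ := exists_weak_N (fun o => -(Gr a b o)) N J Mb ε w hMb
    (fun o j => by rw [Pi.neg_apply, abs_neg]; exact hρ o j) hN hε0 hε1 hdet
  have hmem := (mem_hat_iff a b N u).2 hu
  refine ⟨W ∪ nearC a b c u, ?_, ?_, ?_⟩
  · exact (Finset.card_union_le _ _).trans (Nat.add_le_add hWc hk)
  · intro r hr hrK
    rw [Finset.mem_union, not_or] at hrK
    have h0 : 0 < slk a b r u := lt_of_le_of_ne (hmem.2 r) fun h => hr (mem_tig.2 h.symm)
    by_contra hcon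
    exact hrK.2 (by
      unfold nearC
      rw [Finset.mem_filter]
      exact ⟨Finset.mem_univ _, h0, (not_le.1 hcon).le⟩)
  · intro r hr hrK
    obtain ⟨α, c0, e, -, -, he, hrow⟩ := hW r
    refine ⟨c0, fun o => if o ∈ W then α o else 0,
      fun o => if h : ∃ k, J k = o then e h.choose else 0, ?_, ?_⟩
    · intro j hj
      have h := (hJ j).1 hj
      simp only [h, dif_pos]
      exact he _
    · intro y
      have h1 : slk a b r y = (-(Gr a b r)) ⬝ᵥ y := rfl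
      have hrow' : -(Gr a b r) = ∑ s ∈ W, α s • (-(Gr a b s)) + c0 • N +
          ∑ j, e j • (-(Gr a b (J j))) := hrow
      rw [h1, hrow', add_dotProduct, add_dotProduct, sum_dotProduct, sum_dotProduct,
        smul_dotProduct, smul_eq_mul, dl_apply]
      have h2 : ∑ o ∈ W ∪ nearC a b c u, (if o ∈ W then α o else 0) * slk a b o y =
          ∑ s ∈ W, (α s • (-(Gr a b s))) ⬝ᵥ y := by
        rw [← Finset.sum_subset Finset.subset_union_left
          (f := fun o => (if o ∈ W then α o else 0) * slk a b o y)]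
        · refine Finset.sum_congr rfl fun o ho => ?_
          rw [if_pos ho, smul_dotProduct, smul_eq_mul]
          rfl
        · intro o _ ho
          rw [if_neg ho, zero_mul]
      have h3 : ∑ o ∈ tig (slk a b) u,
          (if h : ∃ k, J k = o then e h.choose else 0) * slk a b o y =
          ∑ j, (e j • (-(Gr a b (J j)))) ⬝ᵥ y := by
        have himg : tig (slk a b) u = Finset.univ.map ⟨J, hJi⟩ := by
          ext o
          rw [hJ o, Finset.mem_map]
          simp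
        rw [himg, Finset.sum_map]
        refine Finset.sum_congr rfl fun j _ => ?_
        have h : ∃ k, J k = J j := ⟨j, rfl⟩
        have hj : h.choose = j := hJi h.choose_spec
        show (if h : ∃ k, J k = J j then e h.choose else 0) * slk a b (J j) y = _
        rw [dif_pos h, hj, smul_dotProduct, smul_eq_mul]
        rfl
      rw [h2, h3]
      ring

/-- **Hops in the chart.** -/
theorem hub_chart {a : Fin m → Fin n → ℝ} {b : Fin m → ℝ} {N : Fin (n + 1) → ℝ}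
    (hG : GP (chA a b N) (chB m) {none}) (hbd : Bornology.IsBounded (Chart a b N))
    (k k₁ k₂ : ℕ) (c A S θ τ : ℝ) (hA : 0 ≤ A) (v : Fin (n + 1) → ℝ)
    (hstr : ∀ u, Vert (chA a b N) (chB m) {none} (chS m) u → 0 < u 0 →
      Str (slk a b) (dl N) k c A u)
    (hnear : ∀ u, Vert (chA a b N) (chB m) {none} (chS m) u → 0 < u 0 →
      (nearC a b c u).card ≤ k₂)
    (h X : Fin (n + 1) → ℝ) (hh : Vert (chA a b N) (chB m) {none} (chS m) h)
    (hmin : ∀ y ∈ Chart a b N, v ⬝ᵥ h ≤ v ⬝ᵥ y) (hX : X ∈ Chart a b N)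
    (hS : ∀ I : Finset (Option (Fin m)), ∑ o ∈ I, slk a b o h ≤ S)
    (hθ0 : 0 ≤ θ) (hθ1 : θ ≤ 1) (hθ : θ * (c + 2 * A * S) ≤ c)
    (G : ℝ) (hGle : ∀ y ∈ Chart a b N, v ⬝ᵥ y ≤ G) (hG0 : 0 ≤ G)
    (hGX : (1 - θ) * G + θ * (v ⬝ᵥ X) < 0)
    (hgo : ∀ y ∈ Chart a b N, y 0 = 0 → 0 ≤ v ⬝ᵥ y)
    (lam : Option (Fin m) → ℝ) (γ : ℝ) (hlam : ∀ o ∈ tig (slk a b) h, 0 ≤ lam o)
    (hid : ∀ y, v ⬝ᵥ y = γ * (N ⬝ᵥ y) + ∑ o ∈ tig (slk a b) h, lam o * slk a b o y)
    (hτ : 0 < τ) (hsmall : ((tig (slk a b) h).filter (fun o => lam o < τ)).card ≤ k₁)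
    (L κ : ℕ) (hκ : k + 2 ≤ κ) (hκ' : k₁ + k₂ ≤ κ)
    (hPL : ∀ u u', Vert (chA a b N) (chB m) {none} (chS m) u →
      Vert (chA a b N) (chB m) {none} (chS m) u' → 0 < u 0 → 0 < u' 0 →
      n ≤ (tig (slk a b) u ∩ tig (slk a b) u').card + κ →
      Reach (chA a b N) (chB m) {none} (chS m) L u u')
    (t : ℕ) (Γ : ℝ) (hΓ : ∀ y ∈ Chart a b N, v ⬝ᵥ y - v ⬝ᵥ h ≤ Γ) (ht : (1 - θ) ^ t * Γ ≤ τ * c)
    (u : Fin (n + 1) → ℝ) (hu : Vert (chA a b N) (chB m) {none} (chS m) u) (hu0 : 0 < u 0) :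
    Reach (chA a b N) (chB m) {none} (chS m) ((t + 1) * L) u h := by
  classical
  have hnone : ∀ y : Fin (n + 1) → ℝ, slk a b none y = y 0 := by
    intro y
    rw [slk_apply, gr_none, neg_neg]
  have hpos : ∀ {y : Fin (n + 1) → ℝ}, y ∈ Hat (slk a b) (dl N) → slk a b none y ≠ 0 →
      0 < y 0 := by
    intro y hy h0
    have h1 := hy.2 none
    rw [hnone] at h1 h0
    exact lt_of_le_of_ne h1 (Ne.symm h0)
  refine hub (slk a b) (dl N) n k k₁ k₂ c A S θ τ hA (face_opt hG hbd) (dl v) none ?_ ?_ h X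
    (vtx_of_vert hG hh) (fun y hy => hmin y ((mem_hat_iff a b N y).1 hy))
    ((mem_hat_iff a b N X).2 hX) hS hθ0 hθ1 hθ G
    (fun y hy => hGle y ((mem_hat_iff a b N y).1 hy)) hG0 hGX ?_ lam γ hlam hid hτ hsmall L κ hκ
    hκ' (Reach (chA a b N) (chB m) {none} (chS m)) ?_ ?_ ?_ t Γ
    (fun y hy => hΓ y ((mem_hat_iff a b N y).1 hy)) ht u (vtx_of_vert hG hu) ?_
  · intro u' hu' hu'0
    exact hstr u' (vert_of_vtx hu') (hpos hu'.mem hu'0)
  · intro u' hu' hu'0
    have := hnear u' (vert_of_vtx hu') (hpos hu'.mem hu'0)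
    unfold nearC at this
    convert this
  · intro y hy hy0
    rw [hnone] at hy0
    exact hgo y ((mem_hat_iff a b N y).1 hy) hy0
  · intro u' hu'
    exact ⟨vert_of_vtx hu', rfl⟩
  · intro i j x y z h1 h2
    exact reach_trans h1 h2
  · intro x y hx hy hx0 hy0 hc
    exact hPL x y (vert_of_vtx hx) (vert_of_vtx hy) (hpos hx.mem hx0) (hpos hy.mem hy0) (by
      convert hc)
  · rw [hnone]
    exact hu0.ne'

end Pool.Agent.Lib.S3.Hop
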